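import Pool.Agent.Lib.MP_a1bc66_al.Final

/-!
# Subloops of free Bol loops of exponent two are free

`FreeBolTwo X` is the free (right) Bol loop of exponent two on `X`: terms in multiplication, left
division, right division and `1`, modulo the congruence generated by the loop identities, the
right Bol identity and `x * x = 1`.
-/

set_option autoImplicit false

namespace Pool.Agent.Results.MP_a1bc66_al.SubloopsFree

open Pool.Agent.Lib.MP_a1bc66_al

universe u

/-- For every set `X`, every subloop of the free Bol loop of exponent two on `X` is isomorphic to
the free Bol loop of exponent two on some set `Y`. -/
theorem result (X : Type u) (H : Subloop (FreeBolTwo X)) :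
    ∃ Y : Type u, Nonempty (H.carrier ≃* FreeBolTwo Y) :=
  subloop_free X H

end Pool.Agent.Results.MP_a1bc66_al.SubloopsFree
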